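import Mathlib

set_option autoImplicit false

namespace Pool.Agent.Results.MP_fbee77_co.Five

open Finset symmDiff

/-- A rainbow Hamilton cycle of `G_{n,2}`, listed cyclically: distinct pairs, consecutive pairs
share exactly one element, and the colours (symmetric differences) are distinct. -/
def Rainbow {n : ℕ} (c : ZMod (n.choose 2) → Finset (Fin n)) : Prop :=
  (∀ i, #(c i) = 2) ∧ Function.Injective c ∧ (∀ i, #(c i ∩ c (i + 1)) = 1) ∧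
    Function.Injective fun i => c i ∆ c (i + 1)

/-- There are `n - 2` pairwise edge-disjoint rainbow Hamilton cycles. -/
def Factor (n : ℕ) : Prop := ∃ C : Fin (n - 2) → ZMod (n.choose 2) → Finset (Fin n),
  (∀ k, Rainbow (C k)) ∧ ∀ k l, k ≠ l → ∀ i j, s(C k i, C k (i + 1)) ≠ s(C l j, C l (j + 1))

def w : Fin 21 → Finset (Fin 7) := ![{0, 1}, {0, 2}, {0, 3}, {0, 4}, {0, 5}, {0, 6}, {1, 2}, {1, 3}, {1, 4}, {1, 5}, {1, 6}, {2, 3}, {2, 4}, {2, 5}, {2, 6}, {3, 4}, {3, 5}, {3, 6}, {4, 5}, {4, 6}, {5, 6}]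

def N7 (k : Fin 5) (i : Fin 21) : Fin 21 := Fin.ofNat 21 (3320775515325305765968830349063395484996061758086331478139609500606514944357281529297649387889791961729666681469982595205889824023186774470 / 21 ^ (21 * k.val + i.val))

theorem seven : Factor 7 := by
  have t : Function.Injective w := by decide +kernel
  have a : ∀ k, (∀ i, #(w (N7 k i)) = 2) ∧ (∀ i j, N7 k i = N7 k j → i = j) ∧
      (∀ i, #(w (N7 k i) ∩ w (N7 k (i + 1))) = 1) ∧ ∀ i j, w (N7 k i) ∆ w (N7 k (i + 1)) =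
        w (N7 k j) ∆ w (N7 k (j + 1)) → i = j := by decide +kernel
  have b : ∀ k l, k ≠ l → ∀ i j, ¬ (N7 k i = N7 l j ∧ N7 k (i + 1) = N7 l (j + 1) ∨
      N7 k i = N7 l (j + 1) ∧ N7 k (i + 1) = N7 l j) := by decide +kernel
  refine ⟨fun k i => w (N7 k i), fun k => ⟨(a k).1, fun i j h => (a k).2.1 i j (t h), (a k).2.2⟩,
    fun k l z i j h => b k l z i j ?_⟩
  simp only [Sym2.eq_iff, t.eq_iff] at h
  exact h

def v : Fin 10 → Finset (Fin 5) := ![{0, 1}, {0, 2}, {0, 3}, {0, 4}, {1, 2}, {1, 3}, {1, 4}, {2, 3}, {2, 4}, {3, 4}]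

def col (a b : Fin 10) : ℕ := 134131825629159215029690619521973706740107616051888593907130450609961889353329561238095429515811315758730 / 11 ^ (10 * a.val + b.val) % 11

def P : ℕ → List (List (Fin 10) × List ℕ)
  | 0 => [([0], [])]
  | k + 1 => (P k).flatMap fun s => (List.finRange 10).filterMap fun x =>
      if x ∉ s.1 ∧ col (s.1.headD 0) x < 10 ∧ col (s.1.headD 0) x ∉ s.2 then
        some (x :: s.1, col (s.1.headD 0) x :: s.2) else none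

def L : List (List (Fin 10)) :=
  [[6, 4, 7, 8, 3, 9, 5, 2, 1, 0],
    [5, 6, 3, 8, 4, 7, 9, 2, 1, 0],
    [5, 4, 8, 7, 2, 9, 6, 3, 1, 0],
    [6, 5, 2, 7, 4, 8, 9, 3, 1, 0],
    [3, 8, 9, 2, 5, 6, 4, 7, 1, 0],
    [2, 9, 5, 4, 6, 3, 8, 7, 1, 0],
    [2, 7, 9, 3, 6, 5, 4, 8, 1, 0],
    [3, 9, 6, 4, 5, 2, 7, 8, 1, 0],
    [6, 5, 7, 9, 3, 8, 4, 1, 2, 0],
    [4, 6, 3, 9, 5, 7, 8, 1, 2, 0],
    [4, 5, 9, 7, 1, 8, 6, 3, 2, 0],
    [6, 4, 1, 7, 5, 9, 8, 3, 2, 0],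
    [3, 9, 8, 1, 4, 6, 5, 7, 2, 0],
    [1, 8, 4, 5, 6, 3, 9, 7, 2, 0],
    [1, 7, 8, 3, 6, 4, 5, 9, 2, 0],
    [3, 8, 6, 5, 4, 1, 7, 9, 2, 0],
    [5, 6, 8, 9, 2, 7, 4, 1, 3, 0],
    [4, 5, 2, 9, 6, 8, 7, 1, 3, 0],
    [4, 6, 9, 8, 1, 7, 5, 2, 3, 0],
    [5, 4, 1, 8, 6, 9, 7, 2, 3, 0],
    [2, 9, 7, 1, 4, 5, 6, 8, 3, 0],
    [1, 7, 4, 6, 5, 2, 9, 8, 3, 0],
    [1, 8, 7, 2, 5, 4, 6, 9, 3, 0],
    [2, 7, 5, 6, 4, 1, 8, 9, 3, 0],
    [3, 1, 7, 8, 6, 9, 2, 5, 4, 0],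
    [2, 3, 6, 8, 1, 7, 9, 5, 4, 0],
    [2, 1, 8, 7, 5, 9, 3, 6, 4, 0],
    [3, 2, 5, 7, 1, 8, 9, 6, 4, 0],
    [6, 8, 9, 5, 2, 3, 1, 7, 4, 0],
    [5, 9, 2, 1, 3, 6, 8, 7, 4, 0],
    [5, 7, 9, 6, 3, 2, 1, 8, 4, 0],
    [6, 9, 3, 1, 2, 5, 7, 8, 4, 0],
    [3, 2, 7, 9, 6, 8, 1, 4, 5, 0],
    [1, 3, 6, 9, 2, 7, 8, 4, 5, 0],
    [1, 2, 9, 7, 4, 8, 3, 6, 5, 0],
    [3, 1, 4, 7, 2, 9, 8, 6, 5, 0],
    [6, 9, 8, 4, 1, 3, 2, 7, 5, 0],
    [4, 8, 1, 2, 3, 6, 9, 7, 5, 0],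
    [4, 7, 8, 6, 3, 1, 2, 9, 5, 0],
    [6, 8, 3, 2, 1, 4, 7, 9, 5, 0],
    [2, 3, 8, 9, 5, 7, 1, 4, 6, 0],
    [1, 2, 5, 9, 3, 8, 7, 4, 6, 0],
    [1, 3, 9, 8, 4, 7, 2, 5, 6, 0],
    [2, 1, 4, 8, 3, 9, 7, 5, 6, 0],
    [5, 9, 7, 4, 1, 2, 3, 8, 6, 0],
    [4, 7, 1, 3, 2, 5, 9, 8, 6, 0],
    [4, 8, 7, 5, 2, 1, 3, 9, 6, 0],
    [5, 7, 2, 3, 1, 4, 8, 9, 6, 0]]

def D (l m : List (Fin 10)) : Prop := ∀ i < 10, ∀ j < 10,
  ¬ (l.getD (9 - i) 0 = m.getD (9 - j) 0 ∧ l.getD (9 - (i + 1) % 10) 0 = m.getD (9 - (j + 1) % 10) 0 ∨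
    l.getD (9 - i) 0 = m.getD (9 - (j + 1) % 10) 0 ∧ l.getD (9 - (i + 1) % 10) 0 = m.getD (9 - j) 0)

instance (l m : List (Fin 10)) : Decidable (D l m) := by unfold D; infer_instance

theorem PL : (P 9).map Prod.fst = L := by decide +kernel

theorem noL : ∀ a ∈ L, ∀ b ∈ L, D a b → ∀ c ∈ L, D a c → ¬ D b c := by decide +kernel

theorem enum (c : ZMod 10 → Finset (Fin 5)) (h : Rainbow (n := 5) c) :
    ∃ e : ℕ → Fin 10, ∃ i : ZMod 10, (∀ j : ℕ, c (i + j) = v (e j)) ∧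
      (List.range 10).reverse.map e ∈ L := by
  have t1 : ∀ A : Finset (Fin 5), #A = 2 → ∃ a, A = v a := by decide +kernel
  have t2 : ∀ a b, #(v a ∩ v b) = 1 → ∃ t : Fin 10, col a b = t ∧ v a ∆ v b = v t := by decide +kernel
  have t3 : Function.Injective v := by decide +kernel
  obtain ⟨h1, h2, h3, h4⟩ : (∀ i, #(c i) = 2) ∧ Function.Injective c ∧ (∀ i, #(c i ∩ c (i + 1)) = 1) ∧
    Function.Injective fun i => c i ∆ c (i + 1) := h
  choose d hd using fun i => t1 _ (h1 i)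
  obtain ⟨i, hi⟩ := (Finite.injective_iff_surjective_of_equiv (f := d) (Equiv.refl (Fin 10))).1
    (fun a b z => h2 (by rw [hd, hd, z])) 0
  have inj : ∀ j < 10, ∀ j' < 10, i + (j : ℕ) = i + (j' : ℕ) → j = j' := fun j a j' b z => by
    have := (ZMod.natCast_eq_natCast_iff' j j' 10).1 (add_left_cancel z)
    omega
  obtain ⟨e, he⟩ : ∃ e : ℕ → Fin 10, ∀ j, e j = d (i + j) := ⟨_, fun _ => rfl⟩
  have ce : ∀ j : ℕ, c (i + j) = v (e j) := fun j => by rw [he, hd]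
  have ce' : ∀ j : ℕ, c (i + j + 1) = v (e (j + 1)) := fun j => by rw [← ce]; push_cast; rw [add_assoc]
  have key : ∀ k < 10, ((List.range (k + 1)).reverse.map e,
      (List.range k).reverse.map fun j => col (e j) (e (j + 1))) ∈ P k := by
    intro k
    induction k with
    | zero => simp [P, he, hi]
    | succ k ih =>
      intro hk
      obtain ⟨t, p, q⟩ := t2 (e k) (e (k + 1)) (by rw [← ce, ← ce']; exact h3 _)
      have hh : ((List.range (k + 1)).reverse.map e).headD 0 = e k := by simp [List.range_succ]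
      refine List.mem_flatMap.2 ⟨_, ih (by omega), List.mem_filterMap.2 ⟨e (k + 1), by simp, ?_⟩⟩
      rw [hh, if_pos]
      · simp [List.range_succ]
      · simp only [List.mem_map, List.mem_reverse, List.mem_range]
        refine ⟨fun ⟨j, a, b⟩ => ?_, p ▸ t.2, fun ⟨j, a, b⟩ => ?_⟩
        · have := inj j (by omega) (k + 1) hk (h2 (by rw [ce, ce, b]))
          omega
        · obtain ⟨t', p', q'⟩ := t2 (e j) (e (j + 1)) (by rw [← ce, ← ce']; exact h3 _)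
          have := inj j (by omega) k (by omega) (h4 (by
            simp only []
            rw [ce, ce, ce', ce', q, q', show t = t' from Fin.ext (by omega)]))
          omega
  exact ⟨e, i, ce, PL ▸ List.mem_map.2 ⟨_, key 9 (by norm_num), rfl⟩⟩

theorem five : ¬ Factor 5 := by
  rintro ⟨C, h1, h2⟩
  choose e i he hL using fun k => enum (C k) (h1 k)
  have g : ∀ k, ∀ j < 10, ((List.range 10).reverse.map (e k)).getD (9 - j) 0 = e k j := by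
    intro k j hj
    interval_cases j <;> rfl
  have d : ∀ k l, k ≠ l → D ((List.range 10).reverse.map (e k)) ((List.range 10).reverse.map (e l)) := by
    intro k l z a ha b hb y
    rw [g k a ha, g l b hb, g k _ (Nat.mod_lt _ (by norm_num)), g l _ (Nat.mod_lt _ (by norm_num))] at y
    have y' := congrArg (Sym2.map v) (Sym2.eq_iff.2 y)
    simp only [Sym2.map_mk, ← he, ZMod.natCast_mod, Nat.cast_add, Nat.cast_one, ← add_assoc] at y'
    exact h2 k l z _ _ y'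
  exact noL _ (hL (0 : Fin 3)) _ (hL (1 : Fin 3)) (d _ _ (by decide)) _ (hL (2 : Fin 3))
    (d _ _ (by decide)) (d _ _ (by decide))

theorem result : ¬ Factor 5 ∧ Factor 7 := ⟨five, seven⟩

end Pool.Agent.Results.MP_fbee77_co.Five
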